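import Pool.Agent.helper22.RG9.Spec

set_option autoImplicit false

namespace Pool.Agent.RG9

open Matrix Pool.Agent.H48SL Pool.Agent.UG

theorem ZAR_lin {n : ℕ} (φ : MQ n →ₗ[ℚ] ℚ) (M : MQ n) : φ M = ∑ i, ∑ j, M i j * φ (Matrix.single i j 1) := by
  conv_lhs => rw [Matrix.matrix_eq_sum_single M]
  rw [map_sum]
  refine Finset.sum_congr rfl fun i _ => ?_
  rw [map_sum]
  refine Finset.sum_congr rfl fun j _ => ?_
  have h : Matrix.single i j (M i j) = M i j • Matrix.single i j (1 : ℚ) := by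
    rw [Matrix.smul_single, smul_eq_mul, mul_one]
  rw [h, map_smul, smul_eq_mul]

theorem ZAR_poly {n : ℕ} (φ : MQ n →ₗ[ℚ] ℚ) (Z : MQ n) : IsPolyQ (fun g : SLZ n => φ (qg g * Z * qg g⁻¹)) := by
  have h : (fun g : SLZ n => φ (qg g * Z * qg g⁻¹)) = fun g : SLZ n => ∑ i, ∑ j, (∑ l, (∑ k, qg g i k * Z k l) * qg g⁻¹ l j) * φ (Matrix.single i j 1) := by
    funext g
    rw [ZAR_lin φ]
    simp only [Matrix.mul_apply]
  rw [h]
  refine IsPolyQ.sum _ _ fun i _ => IsPolyQ.sum _ _ fun j _ => ?_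
  refine IsPolyQ.mul (IsPolyQ.sum _ _ fun l _ => ?_) (IsPolyQ.const _)
  exact IsPolyQ.mul (IsPolyQ.sum _ _ fun k _ => IsPolyQ.mul (IsPolyQ.entry i k) (IsPolyQ.const _)) (IsPolyQ.entry_inv l j)

theorem ZAR : ZAR_stmt := by
  intro n D hD S hS g Z hZ
  by_contra hcon
  obtain ⟨φ, h1, h2⟩ := Submodule.exists_le_ker_of_notMem hcon
  apply h1
  refine IsPolyQ.dense hD (ZAR_poly φ Z) (fun x hx => ?_) g
  exact LinearMap.mem_ker.1 (h2 (hS x hx Z hZ))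

end Pool.Agent.RG9
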